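import Mathlib

set_option autoImplicit false
set_option linter.unusedSectionVars false

/-! # Stability fails for product-free sets of words of density near `1/2`

The words with an odd number of occurrences of a long pattern `p` without self-overlaps, after
removing the few words that could create a new occurrence of `p` at a junction, form a
product-free set of density close to `1/2` that is far from every odd-occurrence set. -/

namespace Pool.Agent.Results.MP_ae7721_co.StabilityFails

open Filter

/-- The proportion `|B(n)| / |α|^n` of the words of length `n` that lie in `B`. -/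
noncomputable def layer {α : Type*} [Fintype α] (B : Set (List α)) (n : ℕ) : ℝ :=
  ({w : List α | w ∈ B ∧ w.length = n}.ncard : ℝ) / (Fintype.card α : ℝ) ^ n

/-- The density `d^I(B)` on the interval `I = {M, M+1, ..., M+L-1}` of length `L`. -/
noncomputable def dens {α : Type*} [Fintype α] (B : Set (List α)) (M L : ℕ) : ℝ :=
  (∑ n ∈ Finset.Ico M (M + L), layer B n) / (L : ℝ)

/-- The upper Banach density: the limit superior of `d^I(B)` as both `min I` and `|I|` tend to
infinity. -/
noncomputable def upperDensity {α : Type*} [Fintype α] (B : Set (List α)) : ℝ :=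
  limsup (fun q : ℕ × ℕ => dens B q.1 q.2) atTop

/-- `S` is product-free: `x ++ y ∉ S` for all `x, y ∈ S` (`x = y` allowed). -/
def ProductFree {α : Type*} (S : Set (List α)) : Prop :=
  ∀ x ∈ S, ∀ y ∈ S, x ++ y ∉ S

/-- The odd-occurrence set of `Γ`: the words in which the number of positions carrying a letter
of `Γ` is odd. -/
def OddOcc {α : Type*} [DecidableEq α] (Γ : Finset α) : Set (List α) :=
  {w | Odd (w.countP (· ∈ Γ))}

section Occ

variable {α : Type*} [DecidableEq α]

/-- number of occurrences of `p` in a word -/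
def occ (p : List α) : List α → ℕ
  | [] => 0
  | a :: w => (if (a :: w).take p.length = p then 1 else 0) + occ p w

lemma occ_append (p x y : List α)
    (h : ∀ s, s <:+ x → s ≠ [] → s.length < p.length → (s ++ y).take p.length ≠ p) :
    occ p (x ++ y) = occ p x + occ p y := by
  induction x with
  | nil => simp [occ]
  | cons a x ih =>
    have ih' := ih (fun s hs => h s (hs.trans (List.suffix_cons a x)))
    rw [List.cons_append, occ, occ, ih']
    by_cases hl : p.length ≤ (a :: x).length
    · have : (a :: (x ++ y)).take p.length = (a :: x).take p.length := by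
        rw [← List.cons_append, List.take_append_of_le_length hl]
      rw [this]; ring
    · push Not at hl
      have h1 : (a :: (x ++ y)).take p.length ≠ p := by
        rw [← List.cons_append]
        exact h (a :: x) List.suffix_rfl (by simp) hl
      have h2 : (a :: x).take p.length ≠ p := by
        intro h3
        have := congrArg List.length h3
        rw [List.length_take] at this
        omega
      rw [if_neg h1, if_neg h2]; ring

lemma occ_short (p w : List α) (h : w.length < p.length) : occ p w = 0 := by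
  induction w with
  | nil => rfl
  | cons a w ih =>
    have h' : w.length < p.length := by simp at h; omega
    rw [occ, ih h', if_neg]
    intro h3
    have := congrArg List.length h3
    rw [List.length_take] at this
    omega

lemma occ_self (p w : List α) (hp : p ≠ []) (h : w.length = p.length) :
    occ p w = if w = p then 1 else 0 := by
  cases w with
  | nil => simp at h; exact absurd (List.eq_nil_of_length_eq_zero h.symm) hp
  | cons a w =>
    rw [occ, occ_short p w (by simp at h; omega), ← h, List.take_length]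
    simp

/-- two words of length `p.length` without overlaps with `p` -/
def Free (p q : List α) : Prop :=
  q.length = p.length ∧ (∀ t, 0 < t → t < p.length → p.drop (p.length - t) ≠ q.take t) ∧
    (∀ t, 0 < t → t < p.length → q.drop (p.length - t) ≠ p.take t)

lemma occ_mid {p q : List α} (hp : p ≠ []) (h : Free p q) (u v : List α) :
    occ p (u ++ (q ++ v)) = occ p u + ((if q = p then 1 else 0) + occ p v) := by
  obtain ⟨hl, h1, h2⟩ := h
  rw [occ_append, occ_append, occ_self p q hp hl]
  · intro s hs hs0 hsl he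
    -- `s` a nonempty suffix of `q`
    obtain ⟨t, ht⟩ := hs
    have hs1 : 0 < s.length := List.length_pos_iff.2 hs0
    apply h2 s.length hs1 hsl
    have e1 : q.drop (p.length - s.length) = s := by
      have : p.length - s.length = t.length := by
        have := congrArg List.length ht
        rw [List.length_append] at this
        omega
      rw [this, ← ht, List.drop_left]
    rw [e1, ← he, List.take_take, min_eq_left hsl.le, List.take_left']
    rfl
  · intro s hs hs0 hsl he
    have hs1 : 0 < s.length := List.length_pos_iff.2 hs0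
    apply h1 (p.length - s.length) (by omega) (by omega)
    have e2 : p.length - (p.length - s.length) = s.length := by omega
    rw [e2]
    conv_lhs => rw [← he]
    rw [List.drop_take, List.drop_left' rfl, List.take_append_of_le_length (by omega)]

end Occ

section Sums

variable {α : Type*} [Fintype α]

/-- sum of `G` over all words of length `n` -/
def E (n : ℕ) (G : List α → ℤ) : ℤ := ∑ f : Fin n → α, G (List.ofFn f)

lemma E_add (m n : ℕ) (G : List α → ℤ) :
    E (m + n) G = ∑ q : Fin m → α, E n (fun v => G (List.ofFn q ++ v)) := by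
  unfold E
  rw [← Equiv.sum_comp (Fin.appendEquiv m n), Fintype.sum_prod_type]
  refine Finset.sum_congr rfl fun q _ => Finset.sum_congr rfl fun v _ => ?_
  simp [Fin.appendEquiv, List.ofFn_fin_append]

lemma E_one (n : ℕ) : E (α := α) n (fun _ => 1) = (Fintype.card α : ℤ) ^ n := by
  simp [E]

lemma E_addf (n : ℕ) (G H : List α → ℤ) : E n (fun w => G w + H w) = E n G + E n H := by
  simp [E, Finset.sum_add_distrib]

lemma E_subf (n : ℕ) (G H : List α → ℤ) : E n (fun w => G w - H w) = E n G - E n H := by
  simp [E, Finset.sum_sub_distrib]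

lemma E_mulc (n : ℕ) (c : ℤ) (G : List α → ℤ) : E n (fun w => c * G w) = c * E n G := by
  simp [E, Finset.mul_sum]

lemma E_abs (n : ℕ) (G : List α → ℤ) (h : ∀ w, |G w| ≤ 1) :
    |E n G| ≤ (Fintype.card α : ℤ) ^ n := by
  rw [← E_one (α := α) n]
  exact (Finset.abs_sum_le_sum_abs _ _).trans (Finset.sum_le_sum fun f _ => h _)

lemma ncard_eq_E (n : ℕ) (P : List α → Prop) [DecidablePred P] :
    ({w : List α | P w ∧ w.length = n}.ncard : ℤ) = E n (fun w => if P w then 1 else 0) := by
  have h1 : {w : List α | P w ∧ w.length = n} = List.ofFn '' {f : Fin n → α | P (List.ofFn f)} := by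
    ext w
    constructor
    · rintro ⟨hw, rfl⟩
      exact ⟨w.get, by simpa using hw, by simp⟩
    · rintro ⟨f, hf, rfl⟩
      exact ⟨hf, by simp⟩
  rw [h1, Set.ncard_image_of_injective _ List.ofFn_injective, E, Finset.sum_boole,
    Set.ncard_eq_toFinset_card']
  simp

end Sums

section Signed

variable {α : Type*} [Fintype α] [DecidableEq α]

/-- sign of the number of occurrences -/
def sg (p : List α) (w : List α) : ℤ := (-1) ^ occ p w

/-- multiplicative extension of a function on letters -/
def ps (f : α → ℤ) (w : List α) : ℤ := (w.map f).prod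

lemma ps_append (f : α → ℤ) (u v : List α) : ps f (u ++ v) = ps f u * ps f v := by
  simp [ps]

lemma ps_abs (f : α → ℤ) (hf : ∀ a, |f a| ≤ 1) (w : List α) : |ps f w| ≤ 1 := by
  induction w with
  | nil => simp [ps]
  | cons a w ih =>
    have h : ps f (a :: w) = f a * ps f w := by simp [ps]
    rw [h, abs_mul]
    exact mul_le_one₀ (hf a) (abs_nonneg _) ih

lemma sg_abs (p w : List α) : |sg p w| ≤ 1 := by
  rw [sg, abs_pow]; simp

lemma cancel {p q : List α} (hp : p ≠ []) (hpp : Free p p) (hpq : Free p q) (hne : q ≠ p)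
    (f : α → ℤ) (hf : ps f p = ps f q) (u v : List α) :
    sg p (u ++ (p ++ v)) * ps f (u ++ (p ++ v)) + sg p (u ++ (q ++ v)) * ps f (u ++ (q ++ v))
      = 0 := by
  rw [sg, sg, occ_mid hp hpp, occ_mid hp hpq, if_pos rfl, if_neg hne]
  simp only [ps_append, hf]
  ring

lemma bound {p q : List α} (hp : p ≠ []) (hpp : Free p p) (hpq : Free p q) (hne : q ≠ p)
    (f : α → ℤ) (hf1 : ∀ a, |f a| ≤ 1) (hf : ps f p = ps f q) (m r : ℕ) (u : List α) :
    |E (m * p.length + r) (fun v => sg p (u ++ v) * ps f (u ++ v))| ≤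
      ((Fintype.card α : ℤ) ^ p.length - 2) ^ m * (Fintype.card α : ℤ) ^ r := by
  induction m generalizing u with
  | zero =>
    rw [Nat.zero_mul, Nat.zero_add, pow_zero, one_mul]
    apply E_abs
    intro w
    rw [abs_mul]
    exact mul_le_one₀ (sg_abs _ _) (abs_nonneg _) (ps_abs f hf1 _)
  | succ m ih =>
    have h1 : (m + 1) * p.length + r = p.length + (m * p.length + r) := by ring
    rw [h1, E_add]
    set T : (Fin p.length → α) → ℤ := fun x => E (m * p.length + r)
      (fun v => sg p (u ++ (List.ofFn x ++ v)) * ps f (u ++ (List.ofFn x ++ v))) with hT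
    change |∑ x, T x| ≤ _
    have hTb : ∀ x, |T x| ≤ ((Fintype.card α : ℤ) ^ p.length - 2) ^ m *
        (Fintype.card α : ℤ) ^ r := by
      intro x
      have := ih (u ++ List.ofFn x)
      simpa [hT, List.append_assoc] using this
    let fp : Fin p.length → α := p.get
    let fq : Fin p.length → α := fun i => q.get (i.cast hpq.1.symm)
    have hfp : List.ofFn fp = p := by simp [fp]
    have hfq : List.ofFn fq = q := by
      apply List.ext_getElem
      · simp [hpq.1]
      · intro i h1 h2
        simp [fq]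
    have hpqf : fq ≠ fp := by
      intro h
      apply hne
      rw [← hfp, ← hfq, h]
    have hcan : T fp + T fq = 0 := by
      simp only [hT]
      rw [← E_addf, hfp, hfq]
      have : (fun w => sg p (u ++ (p ++ w)) * ps f (u ++ (p ++ w)) +
          sg p (u ++ (q ++ w)) * ps f (u ++ (q ++ w))) = fun _ => 0 := by
        funext v
        exact cancel hp hpp hpq hne f hf u v
      rw [this]
      simp [E]
    have hs1 := Finset.add_sum_erase Finset.univ T (Finset.mem_univ fp)
    have hs2 := Finset.add_sum_erase (Finset.univ.erase fp) T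
      (Finset.mem_erase.2 ⟨hpqf, Finset.mem_univ fq⟩)
    have hs3 : ∑ x, T x = ∑ x ∈ (Finset.univ.erase fp).erase fq, T x := by
      rw [← hs1, ← hs2]; linarith
    have hcard : (((Finset.univ.erase fp).erase fq).card : ℤ) =
        (Fintype.card α : ℤ) ^ p.length - 2 := by
      have hc2 : (Finset.univ : Finset (Fin p.length → α)).card
          = Fintype.card α ^ p.length := by simp
      have h2 : 2 ≤ (Finset.univ : Finset (Fin p.length → α)).card := by
        rw [← Finset.card_pair hpqf]
        exact Finset.card_le_card (Finset.subset_univ _)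
      rw [Finset.card_erase_of_mem (Finset.mem_erase.2 ⟨hpqf, Finset.mem_univ fq⟩),
        Finset.card_erase_of_mem (Finset.mem_univ fp)]
      rw [Nat.sub_sub, Nat.cast_sub (by omega), hc2]
      push_cast
      ring
    rw [hs3]
    calc |∑ x ∈ (Finset.univ.erase fp).erase fq, T x|
        ≤ ∑ x ∈ (Finset.univ.erase fp).erase fq, |T x| := Finset.abs_sum_le_sum_abs _ _
      _ ≤ ∑ x ∈ (Finset.univ.erase fp).erase fq,
            ((Fintype.card α : ℤ) ^ p.length - 2) ^ m * (Fintype.card α : ℤ) ^ r :=
          Finset.sum_le_sum fun x _ => hTb x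
      _ = ((Fintype.card α : ℤ) ^ p.length - 2) ^ (m + 1) * (Fintype.card α : ℤ) ^ r := by
          rw [Finset.sum_const, nsmul_eq_mul, hcard]; ring

end Signed

section Count

variable {α : Type*} [Fintype α] [DecidableEq α]

/-- words that could take part in an occurrence of `p` across a junction -/
def Bad (p : List α) (h : ℕ) (w : List α) : Prop :=
  ∃ t, h ≤ t ∧ t < p.length ∧ (p.take t <:+ w ∨ p.drop (p.length - t) <+: w)

/-- the product-free set -/
def S (p : List α) (h : ℕ) : Set (List α) := {w | Odd (occ p w) ∧ ¬ Bad p h w}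

lemma S_productFree {p : List α} {h : ℕ} (hL : p.length = 2 * h) : ProductFree (S p h) := by
  rintro x ⟨hx1, hx2⟩ y ⟨hy1, hy2⟩ ⟨hxy, -⟩
  rw [occ_append] at hxy
  · exact (Nat.not_odd_iff_even.2 (hx1.add_odd hy1)) hxy
  · intro s hs hs0 hsl he
    have hs1 : 0 < s.length := List.length_pos_iff.2 hs0
    by_cases hh : h ≤ s.length
    · apply hx2
      refine ⟨s.length, hh, hsl, Or.inl ?_⟩
      have : p.take s.length = s := by
        rw [← he, List.take_take, min_eq_left hsl.le, List.take_left' rfl]
      rw [this]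
      exact hs
    · apply hy2
      refine ⟨p.length - s.length, by omega, by omega, Or.inr ?_⟩
      have e2 : p.length - (p.length - s.length) = s.length := by omega
      rw [e2]
      have : p.drop s.length = y.take (p.length - s.length) := by
        conv_lhs => rw [← he]
        rw [List.drop_take, List.drop_left' rfl]
      rw [this]
      exact List.take_prefix _ _

lemma ncard_len (n : ℕ) : {w : List α | w.length = n}.ncard = Fintype.card α ^ n := by
  have h := ncard_eq_E (α := α) n (fun _ => True)
  simp only [true_and, if_true] at h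
  rw [E_one] at h
  exact_mod_cast h

lemma finite_len (n : ℕ) : {w : List α | w.length = n}.Finite := List.finite_length_eq α n

lemma finite_len' (n : ℕ) (P : List α → Prop) : {w : List α | P w ∧ w.length = n}.Finite :=
  (finite_len n).subset fun _ h => h.2

lemma suf_count (c : List α) (n : ℕ) (hc : c.length ≤ n) :
    {w : List α | c <:+ w ∧ w.length = n}.ncard ≤ Fintype.card α ^ (n - c.length) := by
  have h1 : {w : List α | c <:+ w ∧ w.length = n} ⊆
      (fun l => l ++ c) '' {l : List α | l.length = n - c.length} := by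
    rintro w ⟨⟨l, rfl⟩, hw⟩
    refine ⟨l, ?_, rfl⟩
    rw [List.length_append] at hw
    change l.length = _
    omega
  refine (Set.ncard_le_ncard h1 ((finite_len _).image _)).trans ?_
  refine (Set.ncard_image_le (finite_len _)).trans ?_
  rw [ncard_len]

lemma pre_count (c : List α) (n : ℕ) (hc : c.length ≤ n) :
    {w : List α | c <+: w ∧ w.length = n}.ncard ≤ Fintype.card α ^ (n - c.length) := by
  have h1 : {w : List α | c <+: w ∧ w.length = n} ⊆
      (fun l => c ++ l) '' {l : List α | l.length = n - c.length} := by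
    rintro w ⟨⟨l, rfl⟩, hw⟩
    refine ⟨l, ?_, rfl⟩
    rw [List.length_append] at hw
    change l.length = _
    omega
  refine (Set.ncard_le_ncard h1 ((finite_len _).image _)).trans ?_
  refine (Set.ncard_image_le (finite_len _)).trans ?_
  rw [ncard_len]

lemma bad_count (hN : 1 ≤ Fintype.card α) {p : List α} {h n : ℕ} (hL : p.length = 2 * h)
    (hn : p.length ≤ n) :
    {w : List α | Bad p h w ∧ w.length = n}.ncard ≤ 2 * h * Fintype.card α ^ (n - h) := by
  have h1 : {w : List α | Bad p h w ∧ w.length = n} ⊆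
      ⋃ t ∈ Finset.Ico h (2 * h), ({w : List α | p.take t <:+ w ∧ w.length = n} ∪
        {w : List α | p.drop (p.length - t) <+: w ∧ w.length = n}) := by
    rintro w ⟨⟨t, ht1, ht2, ht3⟩, hw⟩
    simp only [Set.mem_iUnion]
    refine ⟨t, Finset.mem_Ico.2 ⟨ht1, by omega⟩, ?_⟩
    rcases ht3 with h3 | h3
    · exact Or.inl ⟨h3, hw⟩
    · exact Or.inr ⟨h3, hw⟩
  have hfin : (⋃ t ∈ Finset.Ico h (2 * h), ({w : List α | p.take t <:+ w ∧ w.length = n} ∪
        {w : List α | p.drop (p.length - t) <+: w ∧ w.length = n})).Finite := by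
    refine (finite_len n).subset ?_
    intro w hw
    simp only [Set.mem_iUnion] at hw
    obtain ⟨t, -, h3 | h3⟩ := hw
    · exact h3.2
    · exact h3.2
  refine (Set.ncard_le_ncard h1 hfin).trans ?_
  refine (Finset.set_ncard_biUnion_le _ _).trans ?_
  have h2 : ∀ t ∈ Finset.Ico h (2 * h), ({w : List α | p.take t <:+ w ∧ w.length = n} ∪
        {w : List α | p.drop (p.length - t) <+: w ∧ w.length = n}).ncard ≤
        2 * Fintype.card α ^ (n - h) := by
    intro t ht
    rw [Finset.mem_Ico] at ht
    refine (Set.ncard_union_le _ _).trans ?_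
    have e1 : (p.take t).length = t := by rw [List.length_take]; omega
    have e2 : (p.drop (p.length - t)).length = t := by rw [List.length_drop]; omega
    have i1 := suf_count (p.take t) n (by omega)
    have i2 := pre_count (p.drop (p.length - t)) n (by omega)
    rw [e1] at i1
    rw [e2] at i2
    have i3 : Fintype.card α ^ (n - t) ≤ Fintype.card α ^ (n - h) :=
      Nat.pow_le_pow_right hN (by omega)
    omega
  refine (Finset.sum_le_sum h2).trans ?_
  rw [Finset.sum_const, Nat.card_Ico, smul_eq_mul]
  have : 2 * h - h = h := by omega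
  rw [this]
  apply le_of_eq
  ring

/-- the letter function of `Γ` -/
def fG (Γ : Finset α) (a : α) : ℤ := if a ∈ Γ then -1 else 1

lemma fG_abs (Γ : Finset α) (a : α) : |fG Γ a| ≤ 1 := by
  unfold fG; split_ifs <;> simp

lemma ps_fG (Γ : Finset α) (w : List α) : ps (fG Γ) w = (-1) ^ (w.countP (· ∈ Γ)) := by
  induction w with
  | nil => simp [ps]
  | cons a w ih =>
    have h : ps (fG Γ) (a :: w) = fG Γ a * ps (fG Γ) w := by simp [ps]
    rw [h, ih, List.countP_cons]
    by_cases ha : a ∈ Γ <;> simp [fG, ha, pow_succ]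

lemma E_ps (f : α → ℤ) (n : ℕ) : E n (ps f) = (∑ a, f a) ^ n := by
  rw [Fintype.sum_pow]
  unfold E ps
  refine Finset.sum_congr rfl fun x _ => ?_
  rw [List.map_ofFn, List.prod_ofFn]
  rfl

variable {p q : List α} (hp : p ≠ []) (hpp : Free p p) (hpq : Free p q) (hne : q ≠ p)

include hp hpp hpq hne

lemma odd_count (n : ℕ) :
    (Fintype.card α : ℤ) ^ n - ((Fintype.card α : ℤ) ^ p.length - 2) ^ (n / p.length) *
      (Fintype.card α : ℤ) ^ (n % p.length) ≤
    2 * ({w : List α | Odd (occ p w) ∧ w.length = n}.ncard : ℤ) := by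
  have hb := bound hp hpp hpq hne (fun _ => 1) (by simp) (by simp [ps]) (n / p.length)
    (n % p.length) []
  rw [Nat.div_add_mod'] at hb
  simp only [List.nil_append] at hb
  rw [ncard_eq_E, ← E_mulc]
  have h1 : (fun w => 2 * (if Odd (occ p w) then 1 else 0)) =
      fun w => (1 : ℤ) - sg p w * ps (fun _ => 1) w := by
    funext w
    have : ps (fun _ => (1 : ℤ)) w = 1 := by simp [ps]
    rw [this, sg]
    by_cases ho : Odd (occ p w)
    · rw [if_pos ho, ho.neg_one_pow]; norm_num
    · rw [if_neg ho, (Nat.not_odd_iff_even.1 ho).neg_one_pow]; norm_num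
  rw [h1, E_subf, E_one]
  have := (abs_le.1 hb).2
  linarith

lemma both_count (hpqc : ∀ f : α → ℤ, ps f p = ps f q) (Γ : Finset α) (n : ℕ) (hn : Even n) :
    (Fintype.card α : ℤ) ^ n - 2 * (((Fintype.card α : ℤ) ^ p.length - 2) ^ (n / p.length) *
      (Fintype.card α : ℤ) ^ (n % p.length)) ≤
    4 * ({w : List α | (Odd (occ p w) ∧ ¬ Odd (w.countP (· ∈ Γ))) ∧ w.length = n}.ncard : ℤ) := by
  have hb := bound hp hpp hpq hne (fun _ => 1) (by simp) (by simp [ps]) (n / p.length)
    (n % p.length) []
  have hb2 := bound hp hpp hpq hne (fG Γ) (fG_abs Γ) (hpqc _) (n / p.length)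
    (n % p.length) []
  rw [Nat.div_add_mod'] at hb hb2
  simp only [List.nil_append] at hb hb2
  rw [ncard_eq_E, ← E_mulc]
  have h1 : (fun w => 4 * (if Odd (occ p w) ∧ ¬ Odd (w.countP (· ∈ Γ)) then 1 else 0)) =
      fun w => (((1 : ℤ) - sg p w * ps (fun _ => 1) w) + ps (fG Γ) w) -
        sg p w * ps (fG Γ) w := by
    funext w
    have : ps (fun _ => (1 : ℤ)) w = 1 := by simp [ps]
    rw [this, sg, ps_fG]
    by_cases ho : Odd (occ p w)
    · by_cases ho2 : Odd (w.countP (· ∈ Γ))
      · rw [if_neg (by tauto), ho.neg_one_pow, ho2.neg_one_pow]; norm_num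
      · rw [if_pos ⟨ho, ho2⟩, ho.neg_one_pow, (Nat.not_odd_iff_even.1 ho2).neg_one_pow]; norm_num
    · rw [if_neg (by tauto), (Nat.not_odd_iff_even.1 ho).neg_one_pow]; ring
  rw [h1, E_subf, E_addf, E_subf, E_one]
  have i1 := (abs_le.1 hb).2
  have i2 := (abs_le.1 hb2).2
  have i3 : 0 ≤ E n (ps (fG Γ)) := by
    rw [E_ps]; exact hn.pow_nonneg _
  linarith

end Count

section Pattern

variable {α : Type*}

lemma nooverlap {a b : α} (hab : a ≠ b) {k : ℕ} (hk : 3 ≤ k) {x y : List α}
    (hx1 : x[k]? = some b) (hx2 : x[k + 3]? = some b) (hy : ∀ i < k, y[i]? = some a)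
    {t : ℕ} (ht0 : 0 < t) (ht : t < k + 4) : x.drop (k + 4 - t) ≠ y.take t := by
  intro h
  by_cases htk : t ≤ k
  · have h1 := congrArg (fun l => l[t - 1]?) h
    simp only [List.getElem?_drop] at h1
    rw [List.getElem?_take_of_lt (by omega), hy (t - 1) (by omega)] at h1
    have h2 : k + 4 - t + (t - 1) = k + 3 := by omega
    rw [h2, hx2] at h1
    exact hab (Option.some.inj h1).symm
  · have h1 := congrArg (fun l => l[k - (k + 4 - t)]?) h
    simp only [List.getElem?_drop] at h1
    rw [List.getElem?_take_of_lt (by omega), hy _ (by omega)] at h1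
    have h2 : k + 4 - t + (k - (k + 4 - t)) = k := by omega
    rw [h2, hx1] at h1
    exact hab (Option.some.inj h1).symm

/-- `a ⋯ a b a b b` -/
def pat (a b : α) (k : ℕ) : List α := List.replicate k a ++ [b, a, b, b]

/-- `a ⋯ a b b a b` -/
def pat' (a b : α) (k : ℕ) : List α := List.replicate k a ++ [b, b, a, b]

lemma pat_len (a b : α) (k : ℕ) : (pat a b k).length = k + 4 := by simp [pat]

lemma pat'_len (a b : α) (k : ℕ) : (pat' a b k).length = k + 4 := by simp [pat']

lemma pat_a (a b : α) (k : ℕ) : ∀ i < k, (pat a b k)[i]? = some a := by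
  intro i hi
  rw [pat, List.getElem?_append_left (by simpa using hi)]
  simp [hi]

lemma pat'_a (a b : α) (k : ℕ) : ∀ i < k, (pat' a b k)[i]? = some a := by
  intro i hi
  rw [pat', List.getElem?_append_left (by simpa using hi)]
  simp [hi]

lemma pat_k (a b : α) (k : ℕ) : (pat a b k)[k]? = some b := by
  rw [pat, List.getElem?_append_right (by simp)]
  simp

lemma pat'_k (a b : α) (k : ℕ) : (pat' a b k)[k]? = some b := by
  rw [pat', List.getElem?_append_right (by simp)]
  simp

lemma pat_k3 (a b : α) (k : ℕ) : (pat a b k)[k + 3]? = some b := by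
  rw [pat, List.getElem?_append_right (by simp)]
  simp

lemma pat'_k3 (a b : α) (k : ℕ) : (pat' a b k)[k + 3]? = some b := by
  rw [pat', List.getElem?_append_right (by simp)]
  simp

lemma pat_ne {a b : α} (hab : a ≠ b) (k : ℕ) : pat' a b k ≠ pat a b k := by
  intro h
  rw [pat, pat', List.append_cancel_left_eq] at h
  simp only [List.cons.injEq, true_and] at h
  exact hab h.1.symm

lemma free_pp [DecidableEq α] {a b : α} (hab : a ≠ b) {k : ℕ} (hk : 3 ≤ k) :
    Free (pat a b k) (pat a b k) := by
  refine ⟨rfl, ?_, ?_⟩ <;>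
  · rw [pat_len]
    intro t ht0 ht
    exact nooverlap hab hk (pat_k a b k) (pat_k3 a b k) (pat_a a b k) ht0 ht

lemma free_pq [DecidableEq α] {a b : α} (hab : a ≠ b) {k : ℕ} (hk : 3 ≤ k) :
    Free (pat a b k) (pat' a b k) := by
  refine ⟨by rw [pat_len, pat'_len], ?_, ?_⟩
  · rw [pat_len]
    intro t ht0 ht
    exact nooverlap hab hk (pat_k a b k) (pat_k3 a b k) (pat'_a a b k) ht0 ht
  · rw [pat_len]
    intro t ht0 ht
    exact nooverlap hab hk (pat'_k a b k) (pat'_k3 a b k) (pat_a a b k) ht0 ht

lemma pat_ps (f : α → ℤ) (a b : α) (k : ℕ) : ps f (pat a b k) = ps f (pat' a b k) := by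
  simp only [pat, pat']
  simp [ps]
  ring_nf
  tauto

end Pattern

section Density

variable {α : Type*} [Fintype α]

lemma layer_nonneg (B : Set (List α)) (n : ℕ) : 0 ≤ layer B n := by
  unfold layer; positivity

lemma layer_le_one [DecidableEq α] (hN : 1 ≤ Fintype.card α) (B : Set (List α)) (n : ℕ) :
    layer B n ≤ 1 := by
  unfold layer
  have hpos : (0 : ℝ) < (Fintype.card α : ℝ) ^ n := by positivity
  rw [div_le_one hpos]
  have h : {w : List α | w ∈ B ∧ w.length = n}.ncard ≤ {w : List α | w.length = n}.ncard :=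
    Set.ncard_le_ncard (fun w hw => hw.2) (finite_len n)
  rw [ncard_len] at h
  exact_mod_cast h

lemma dens_le_one [DecidableEq α] (hN : 1 ≤ Fintype.card α) (B : Set (List α)) (M L : ℕ) :
    dens B M L ≤ 1 := by
  unfold dens
  apply div_le_one_of_le₀ _ (Nat.cast_nonneg L)
  have : ∑ n ∈ Finset.Ico M (M + L), layer B n ≤ ∑ n ∈ Finset.Ico M (M + L), (1 : ℝ) :=
    Finset.sum_le_sum fun n _ => layer_le_one hN B n
  simpa using this

lemma le_upper [DecidableEq α] (hN : 1 ≤ Fintype.card α) (B : Set (List α)) (c : ℝ) (n0 : ℕ)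
    (h : ∀ M L, n0 ≤ M → n0 ≤ L → c ≤ dens B M L) : c ≤ upperDensity B := by
  unfold upperDensity
  apply le_limsup_of_frequently_le
  · apply Eventually.frequently
    filter_upwards [eventually_ge_atTop ((n0, n0) : ℕ × ℕ)] with q hq
    exact h q.1 q.2 hq.1 hq.2
  · exact isBoundedUnder_of ⟨1, fun q => dens_le_one hN B q.1 q.2⟩

lemma sum_even (g : ℕ → ℝ) (hg : ∀ n, 0 ≤ g n) (c : ℝ) (hc : 0 ≤ c) (M : ℕ)
    (h : ∀ n, M ≤ n → Even n → c ≤ g n) (L : ℕ) :
    c * ((L : ℝ) - 1) / 2 ≤ ∑ n ∈ Finset.Ico M (M + L), g n := by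
  induction L using Nat.twoStepInduction with
  | zero => simp; linarith
  | one => simp; exact hg M
  | more L ih _ =>
    have e : M + (L + 2) = M + L + 1 + 1 := by ring
    rw [e, Finset.sum_Ico_succ_top (by omega), Finset.sum_Ico_succ_top (by omega)]
    push_cast
    have h1 : c ≤ g (M + L) + g (M + L + 1) := by
      rcases Nat.even_or_odd (M + L) with he | ho
      · have := h (M + L) (by omega) he
        have := hg (M + L + 1)
        linarith
      · have := h (M + L + 1) (by omega) (by simpa using ho.add_one)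
        have := hg (M + L)
        linarith
    linarith

variable [DecidableEq α]

lemma layer_conv {N : ℝ} (hN : 2 ≤ N) (L n : ℕ) :
    ((N ^ L - 2) ^ (n / L) * N ^ (n % L)) / N ^ n = ((N ^ L - 2) / N ^ L) ^ (n / L) := by
  have hpos : 0 < N := by linarith
  have h1 : N ^ n = (N ^ L) ^ (n / L) * N ^ (n % L) := by
    rw [← pow_mul, ← pow_add, Nat.div_add_mod]
  rw [h1, div_pow]
  rw [mul_div_mul_right _ _ (by positivity)]

variable {p q : List α} {h : ℕ}

lemma layer_S (hN : 2 ≤ Fintype.card α) (hp : p ≠ []) (hpp : Free p p) (hpq : Free p q)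
    (hne : q ≠ p) (hL : p.length = 2 * h) (n : ℕ) (hn : p.length ≤ n) :
    1 / 2 - (((Fintype.card α : ℝ) ^ p.length - 2) / (Fintype.card α : ℝ) ^ p.length) ^
      (n / p.length) / 2 - 2 * h / (Fintype.card α : ℝ) ^ h ≤ layer (S p h) n := by
  have hLp : 0 < p.length := List.length_pos_iff.2 hp
  have h1 := odd_count hp hpp hpq hne n
  have h2 := bad_count (by omega) hL hn
  have h3 : {w : List α | Odd (occ p w) ∧ w.length = n}.ncard ≤
      {w : List α | w ∈ S p h ∧ w.length = n}.ncard +
        {w : List α | Bad p h w ∧ w.length = n}.ncard := by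
    refine le_trans (Set.ncard_le_ncard ?_ ?_) (Set.ncard_union_le _ _)
    · rintro w ⟨hw1, hw2⟩
      by_cases hb : Bad p h w
      · exact Or.inr ⟨hb, hw2⟩
      · exact Or.inl ⟨⟨hw1, hb⟩, hw2⟩
    · exact (finite_len' n _).union (finite_len' n _)
  have hNR : (2 : ℝ) ≤ (Fintype.card α : ℝ) := by exact_mod_cast hN
  have hpos : (0 : ℝ) < (Fintype.card α : ℝ) ^ n := by positivity
  have h1' : (Fintype.card α : ℝ) ^ n - (((Fintype.card α : ℝ) ^ p.length - 2) ^
      (n / p.length) * (Fintype.card α : ℝ) ^ (n % p.length)) ≤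
      2 * ({w : List α | Odd (occ p w) ∧ w.length = n}.ncard : ℝ) := by exact_mod_cast h1
  have h2' : ({w : List α | Bad p h w ∧ w.length = n}.ncard : ℝ) ≤
      2 * h * (Fintype.card α : ℝ) ^ (n - h) := by exact_mod_cast h2
  have h3' : ({w : List α | Odd (occ p w) ∧ w.length = n}.ncard : ℝ) ≤
      ({w : List α | w ∈ S p h ∧ w.length = n}.ncard : ℝ) +
        ({w : List α | Bad p h w ∧ w.length = n}.ncard : ℝ) := by exact_mod_cast h3
  rw [← layer_conv hNR _ _]
  unfold layer
  rw [le_div_iff₀ hpos]
  have e1 : (Fintype.card α : ℝ) ^ n = (Fintype.card α : ℝ) ^ (n - h) *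
      (Fintype.card α : ℝ) ^ h := by
    rw [← pow_add]; congr 1; omega
  have e2 : 2 * h / (Fintype.card α : ℝ) ^ h * (Fintype.card α : ℝ) ^ n =
      2 * h * (Fintype.card α : ℝ) ^ (n - h) := by
    rw [e1]; field_simp
  have e3 : ∀ X : ℝ, X / (Fintype.card α : ℝ) ^ n / 2 * (Fintype.card α : ℝ) ^ n = X / 2 := by
    intro X; field_simp
  rw [sub_mul, sub_mul, e2, e3]
  linarith

lemma layer_G (hN : 2 ≤ Fintype.card α) (hp : p ≠ []) (hpp : Free p p) (hpq : Free p q)
    (hne : q ≠ p) (hpqc : ∀ f : α → ℤ, ps f p = ps f q) (hL : p.length = 2 * h) (n : ℕ)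
    (hn : p.length ≤ n) (hev : Even n) (Γ : Finset α) :
    1 / 4 - (((Fintype.card α : ℝ) ^ p.length - 2) / (Fintype.card α : ℝ) ^ p.length) ^
      (n / p.length) / 2 - 2 * h / (Fintype.card α : ℝ) ^ h ≤ layer (S p h \ OddOcc Γ) n := by
  have hLp : 0 < p.length := List.length_pos_iff.2 hp
  have h1 := both_count hp hpp hpq hne hpqc Γ n hev
  have h2 := bad_count (by omega) hL hn
  have h3 : {w : List α | (Odd (occ p w) ∧ ¬ Odd (w.countP (· ∈ Γ))) ∧ w.length = n}.ncard ≤
      {w : List α | w ∈ S p h \ OddOcc Γ ∧ w.length = n}.ncard +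
        {w : List α | Bad p h w ∧ w.length = n}.ncard := by
    refine le_trans (Set.ncard_le_ncard ?_ ?_) (Set.ncard_union_le _ _)
    · rintro w ⟨⟨hw1, hw3⟩, hw2⟩
      by_cases hb : Bad p h w
      · exact Or.inr ⟨hb, hw2⟩
      · exact Or.inl ⟨⟨⟨hw1, hb⟩, hw3⟩, hw2⟩
    · exact (finite_len' n _).union (finite_len' n _)
  have hNR : (2 : ℝ) ≤ (Fintype.card α : ℝ) := by exact_mod_cast hN
  have hpos : (0 : ℝ) < (Fintype.card α : ℝ) ^ n := by positivity
  have h1' : (Fintype.card α : ℝ) ^ n - 2 * (((Fintype.card α : ℝ) ^ p.length - 2) ^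
      (n / p.length) * (Fintype.card α : ℝ) ^ (n % p.length)) ≤
      4 * ({w : List α | (Odd (occ p w) ∧ ¬ Odd (w.countP (· ∈ Γ))) ∧
        w.length = n}.ncard : ℝ) := by exact_mod_cast h1
  have h2' : ({w : List α | Bad p h w ∧ w.length = n}.ncard : ℝ) ≤
      2 * h * (Fintype.card α : ℝ) ^ (n - h) := by exact_mod_cast h2
  have h3' : ({w : List α | (Odd (occ p w) ∧ ¬ Odd (w.countP (· ∈ Γ))) ∧
        w.length = n}.ncard : ℝ) ≤
      ({w : List α | w ∈ S p h \ OddOcc Γ ∧ w.length = n}.ncard : ℝ) +
        ({w : List α | Bad p h w ∧ w.length = n}.ncard : ℝ) := by exact_mod_cast h3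
  rw [← layer_conv hNR _ _]
  unfold layer
  rw [le_div_iff₀ hpos]
  have e1 : (Fintype.card α : ℝ) ^ n = (Fintype.card α : ℝ) ^ (n - h) *
      (Fintype.card α : ℝ) ^ h := by
    rw [← pow_add]; congr 1; omega
  have e2 : 2 * h / (Fintype.card α : ℝ) ^ h * (Fintype.card α : ℝ) ^ n =
      2 * h * (Fintype.card α : ℝ) ^ (n - h) := by
    rw [e1]; field_simp
  have e3 : ∀ X : ℝ, X / (Fintype.card α : ℝ) ^ n / 2 * (Fintype.card α : ℝ) ^ n = X / 2 := by
    intro X; field_simp
  rw [sub_mul, sub_mul, e2, e3]
  linarith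

end Density

/-- **MP_ae7721_co, Q1, negative answer.**  Over every finite alphabet with at least two letters
stability fails: for `δ = 1/16` and every `ε > 0` there is a product-free set `S` of nonempty
words with upper Banach density larger than `1/2 - ε` such that `S \ O_Γ` has upper Banach
density at least `δ` for every nonempty set `Γ` of letters. -/
theorem result {α : Type*} [Fintype α] [DecidableEq α] (hα : 2 ≤ Fintype.card α) :
    ∃ δ : ℝ, 0 < δ ∧ ∀ ε : ℝ, 0 < ε → ∃ S : Set (List α), [] ∉ S ∧ ProductFree S ∧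
      1 / 2 - ε < upperDensity S ∧
      ∀ Γ : Finset α, Γ.Nonempty → δ ≤ upperDensity (S \ OddOcc Γ) := by
  refine ⟨1 / 16, by norm_num, fun ε hε => ?_⟩
  obtain ⟨a, b, hab⟩ := Fintype.exists_pair_of_one_lt_card (α := α) (by omega)
  have hNR : (2 : ℝ) ≤ (Fintype.card α : ℝ) := by exact_mod_cast hα
  set N : ℝ := (Fintype.card α : ℝ) with hNdef
  -- choice of `h`
  have hlim := tendsto_pow_const_div_const_pow_of_one_lt 1 (show (1 : ℝ) < N by linarith)
  have hη : 0 < min (ε / 8) (1 / 128 : ℝ) := by positivity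
  obtain ⟨h, hh4, hh⟩ := ((eventually_ge_atTop 4).and (hlim.eventually
    (gt_mem_nhds hη))).exists
  rw [pow_one] at hh
  have hb1 : 2 * (h : ℝ) / N ^ h ≤ ε / 4 := by
    have := (lt_min_iff.1 hh).1
    rw [mul_div_assoc]; linarith
  have hb2 : 2 * (h : ℝ) / N ^ h ≤ 1 / 64 := by
    have := (lt_min_iff.1 hh).2
    rw [mul_div_assoc]; linarith
  obtain ⟨k, rfl⟩ : ∃ k, h = k + 4 := ⟨h - 4, by omega⟩
  -- the pattern, of length `2 (k + 4) = (2 k + 4) + 4`
  set p := pat a b (2 * k + 4) with hp
  set q := pat' a b (2 * k + 4) with hq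
  have hL : p.length = 2 * (k + 4) := by rw [hp, pat_len]; ring
  have hLpos : 0 < p.length := by omega
  have hp0 : p ≠ [] := List.length_pos_iff.1 hLpos
  have hpp : Free p p := free_pp hab (by omega)
  have hpq : Free p q := free_pq hab (by omega)
  have hne : q ≠ p := pat_ne hab _
  have hpqc : ∀ f : α → ℤ, ps f p = ps f q := fun f => pat_ps f a b _
  -- the error term
  set θ : ℝ := (N ^ p.length - 2) / N ^ p.length with hθ
  have hNL : (2 : ℝ) ≤ N ^ p.length := by
    calc (2 : ℝ) ≤ N ^ 1 := by simpa using hNR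
      _ ≤ N ^ p.length := pow_le_pow_right₀ (by linarith) hLpos
  have hθ0 : 0 ≤ θ := div_nonneg (by linarith) (by linarith)
  have hθ1 : θ < 1 := by
    rw [hθ, div_lt_one (by linarith)]; linarith
  have hθlim : Tendsto (fun n : ℕ => θ ^ (n / p.length)) atTop (nhds 0) :=
    (tendsto_pow_atTop_nhds_zero_of_lt_one hθ0 hθ1).comp
      (Nat.tendsto_div_const_atTop hLpos.ne')
  have hη2 : 0 < min (ε / 2) (1 / 16 : ℝ) := by positivity
  obtain ⟨n1, hn1⟩ := eventually_atTop.1 (hθlim.eventually (gt_mem_nhds hη2))
  refine ⟨S p (k + 4), ?_, S_productFree hL, ?_, ?_⟩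
  · rintro ⟨h1, -⟩
    simp [occ] at h1
  · have key : 1 / 2 - ε / 2 ≤ upperDensity (S p (k + 4)) := by
      apply le_upper (by omega) _ _ (n1 + p.length + 1)
      intro M L hM hLL
      have hLpos' : (0 : ℝ) < L := by
        have : 0 < L := by omega
        exact_mod_cast this
      unfold dens
      rw [le_div_iff₀ hLpos']
      have hs : ∑ n ∈ Finset.Ico M (M + L), (1 / 2 - ε / 2 : ℝ) ≤
          ∑ n ∈ Finset.Ico M (M + L), layer (S p (k + 4)) n := by
        apply Finset.sum_le_sum
        intro n hn
        rw [Finset.mem_Ico] at hn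
        have h1 := layer_S hα hp0 hpp hpq hne hL n (by omega)
        have h2 := (lt_min_iff.1 (hn1 n (by omega))).1
        rw [← hNdef, ← hθ] at h1
        linarith
      simp only [Finset.sum_const, Nat.card_Ico, nsmul_eq_mul] at hs
      have e : M + L - M = L := by omega
      rw [e] at hs
      linarith
    linarith
  · intro Γ _
    apply le_upper (by omega) _ _ (n1 + p.length + 3)
    intro M L hM hLL
    have hL3 : (3 : ℝ) ≤ L := by
      have : 3 ≤ L := by omega
      exact_mod_cast this
    unfold dens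
    rw [le_div_iff₀ (by linarith)]
    have hs := sum_even (fun n => layer (S p (k + 4) \ OddOcc Γ) n) (fun n => layer_nonneg _ n)
      (3 / 16) (by norm_num) M ?_ L
    · linarith
    · intro n hn hev
      have h1 := layer_G hα hp0 hpp hpq hne hpqc hL n (by omega) hev Γ
      have h2 := (lt_min_iff.1 (hn1 n (by omega))).2
      rw [← hNdef, ← hθ] at h1
      linarith

end Pool.Agent.Results.MP_ae7721_co.StabilityFails
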